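import Pool.Agent.Helper2.AG.Th
import Pool.Agent.Helper43.PW.DimR
import Pool.Agent.Helper27.TF.Bcd

/-!
Project AG (MP_b8862a_ag), block T6: the numbers `s` of the shape `ShD2` with `K ≥ 3`.
-/

set_option linter.unusedSectionVars false

open Module PF TF PW

namespace AG

section euclid

variable {E : Type*} [NormedAddCommGroup E] [InnerProductSpace ℝ E] {Φ X : Finset E} {m n s d : ℕ} {e : Fin m → E}
  {c : ℝ} {l y v : E}

/-- a weight with `K` coordinates `± 1`, the others zero -/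
def SmW (X : Finset E) (e : Fin m → E) (c : ℝ) (K : ℕ) : Prop :=
  ∃ x ∈ X, ∃ w : Fin m → ℤ, (∀ i, cx e c x i = w i) ∧ (∀ i, |w i| ≤ 1) ∧ ∑ i, |w i| = K

theorem abs_one_of_ne {a : ℤ} (h : |a| ≤ 1) (h0 : a ≠ 0) : a = 1 ∨ a = -1 := by
  rw [abs_le] at h
  omega

/-- two coordinates are removed -/
theorem SmW.down (F : Fr Φ m e c d) (hX : Sat Φ X) {K : ℕ} (h : SmW X e c (K + 2)) : SmW X e c K := by
  classical
  obtain ⟨x, hx, w, hw, h1, hs⟩ := h
  obtain ⟨i, hi⟩ : ∃ i, w i ≠ 0 := by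
    by_contra hcon
    push Not at hcon
    simp only [hcon, abs_zero, Finset.sum_const_zero] at hs
    push_cast at hs
    omega
  obtain ⟨j, hji, hj⟩ : ∃ j, j ≠ i ∧ w j ≠ 0 := by
    by_contra hcon
    push Not at hcon
    have h2 : ∑ k, |w k| = |w i| :=
      Finset.sum_eq_single i (fun k _ hk => by rw [hcon k hk, abs_zero]) fun h => absurd (Finset.mem_univ i) h
    have h3 := h1 i
    rw [hs] at h2
    push_cast at h2
    omega
  have hi1 := abs_one_of_ne (h1 i) hi
  have hj1 := abs_one_of_ne (h1 j) hj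
  have h2 := hX.str _ (F.rt_mem hji.symm hi1 hj1) x hx 1 (by
    rw [F.co_rt hji.symm hi1 hj1, hw i, hw j]
    rcases hi1 with h | h <;> rcases hj1 with h' | h' <;> rw [h, h'] <;> norm_num)
  rw [Nat.cast_one, one_smul] at h2
  refine ⟨_, h2, fun k => if k = i ∨ k = j then 0 else w k, fun k => ?_, fun k => ?_, ?_⟩
  · rw [F.cx_sub_rt, hw k]
    by_cases hki : k = i
    · subst hki
      simp [hji]
    · by_cases hkj : k = j
      · subst hkj
        simp [hji, Ne.symm hji]
      · simp [hki, hkj, Ne.symm hki, Ne.symm hkj]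
  · by_cases h : k = i ∨ k = j
    · simp [h]
    · simp only [h, if_false]; exact h1 k
  · have h3 : ∀ k, |w k| = |if k = i ∨ k = j then (0 : ℤ) else w k| + ((if k = i then 1 else 0) + (if k = j then 1 else 0)) := by
      intro k
      have ai : |w i| = 1 := by rcases hi1 with h | h <;> rw [h] <;> rfl
      have aj : |w j| = 1 := by rcases hj1 with h | h <;> rw [h] <;> rfl
      by_cases hki : k = i
      · subst hki
        simp [Ne.symm hji, ai]
      · by_cases hkj : k = j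
        · subst hkj
          simp [hji, aj]
        · simp [hki, hkj]
    have h4 : ∑ k, |w k| = ∑ k, |if k = i ∨ k = j then (0 : ℤ) else w k| + 2 := by
      rw [Finset.sum_congr rfl fun k _ => h3 k, Finset.sum_add_distrib, Finset.sum_add_distrib, Finset.sum_ite_eq',
        Finset.sum_ite_eq']
      simp
    rw [hs] at h4
    push_cast at h4
    linarith

theorem SmW.le_card (F : Fr Φ m e c d) (hX : Sat Φ X) {K : ℕ} (h : SmW X e c K) : m.choose K ≤ X.card := by
  obtain ⟨x, hx, w, hw, h1, hs⟩ := h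
  exact F.choose_of_small hX hx w hw h1 hs

theorem SmW.four (F : Fr Φ m e c d) (hX : Sat Φ X) (hm : 9 ≤ m) {K : ℕ} (hK : 4 ≤ K) (h : SmW X e c K) :
    m.choose 4 ≤ X.card := by
  obtain ⟨t, ht | ht⟩ : ∃ t, K = 2 * t + 4 ∨ K = 2 * t + 5 := ⟨(K - 4) / 2, by omega⟩
  · have h4 : ∀ t, SmW X e c (2 * t + 4) → SmW X e c 4 := by
      intro t
      induction t with
      | zero => exact fun h => h
      | succ t ih => exact fun h => ih (SmW.down F hX (by rwa [show 2 * t + 4 + 2 = 2 * (t + 1) + 4 by ring]))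
    exact (h4 t (ht ▸ h)).le_card F hX
  · have h5 : ∀ t, SmW X e c (2 * t + 5) → SmW X e c 5 := by
      intro t
      induction t with
      | zero => exact fun h => h
      | succ t ih => exact fun h => ih (SmW.down F hX (by rwa [show 2 * t + 5 + 2 = 2 * (t + 1) + 5 by ring]))
    refine le_trans ?_ ((h5 t (ht ▸ h)).le_card F hX)
    have h1 := Nat.choose_succ_right_eq m 4
    have h2 : 5 ≤ m - 4 := by omega
    nlinarith

/-- the coordinates of the highest weight, sorted -/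
def xk (m K b : ℕ) (i : Fin m) : ℤ :=
  if (i : ℕ) + 1 < K then 1 else if (i : ℕ) + 1 = K then (if b = 0 then 1 else -1) else 0

/-- a sorted vector with coordinates `0, 1, -1` -/
theorem sorted_eq {q : Fin m → ℤ} {K : ℕ} (h1 : ∀ i, |q i| ≤ 1) (hK : ∑ i, |q i| = K)
    (hs : ∀ i j, i < j → |q j| ≤ q i) : ∃ b ≤ 1, q = xk m K b := by
  classical
  obtain ⟨S, hS⟩ : ∃ S : Finset (Fin m), S = Finset.univ.filter fun i => q i ≠ 0 := ⟨_, rfl⟩
  have hmem : ∀ i, i ∈ S ↔ q i ≠ 0 := by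
    intro i
    rw [hS]
    simp
  have hcard : S.card = K := by
    have h2 : ((Finset.univ.filter fun i => q i ≠ 0).card : ℤ) = ∑ i, |q i| := by
      rw [Finset.card_filter]
      push_cast
      refine Finset.sum_congr rfl fun i _ => ?_
      by_cases h : q i = 0
      · simp [h]
      · rcases abs_one_of_ne (h1 i) h with h' | h' <;> simp [h']
    rw [hK, ← hS] at h2
    exact_mod_cast h2
  -- initial segment
  have hseg : ∀ i j, i < j → j ∈ S → q i = 1 := by
    intro i j hij hj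
    have h2 := hs i j hij
    have h3 : |q j| = 1 := by
      rcases abs_one_of_ne (h1 j) ((hmem j).1 hj) with h | h <;> rw [h] <;> rfl
    have h4 := h1 i
    rw [abs_le] at h4
    omega
  have hlt : ∀ i ∈ S, (i : ℕ) < K := by
    intro i hi
    have h2 : Finset.Iic i ⊆ S := by
      intro j hj
      rw [Finset.mem_Iic] at hj
      rcases hj.lt_or_eq with h | h
      · rw [hmem, hseg j i h hi]
        exact one_ne_zero
      · rw [h]; exact hi
    have h3 := Finset.card_le_card h2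
    rw [Fin.card_Iic, hcard] at h3
    omega
  have hKm : K ≤ m := by
    rw [← hcard]
    simpa using Finset.card_le_univ S
  have hSeq : ∀ i : Fin m, (i : ℕ) < K → i ∈ S := by
    have h2 : S ⊆ Finset.univ.filter fun i : Fin m => (i : ℕ) < K := by
      intro i hi
      simp only [Finset.mem_filter, Finset.mem_univ, true_and]
      exact hlt i hi
    have h3 : (Finset.univ.filter fun i : Fin m => (i : ℕ) < K).card ≤ S.card := by
      rw [hcard, Fin.card_filter_val_lt]
      exact min_le_right _ _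
    have h4 := Finset.eq_of_subset_of_card_le h2 h3
    intro i hi
    rw [h4]
    simp only [Finset.mem_filter, Finset.mem_univ, true_and]
    exact hi
  have hzero : ∀ i : Fin m, K ≤ (i : ℕ) → q i = 0 := by
    intro i hi
    by_contra h
    have := hlt i ((hmem i).2 h)
    omega
  have hone : ∀ i : Fin m, (i : ℕ) + 1 < K → q i = 1 := by
    intro i hi
    exact hseg i ⟨(i : ℕ) + 1, by omega⟩ (by rw [Fin.lt_def]; simp) (hSeq _ (by simpa using hi))
  by_cases hK0 : K = 0
  · refine ⟨0, by norm_num, funext fun i => ?_⟩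
    unfold xk
    rw [if_neg (by omega), if_neg (by omega)]
    exact hzero i (by omega)
  · have hlast := hSeq ⟨K - 1, by omega⟩ (by simp; omega)
    rw [hmem] at hlast
    have hval : ∀ i : Fin m, (i : ℕ) + 1 = K → q i = q ⟨K - 1, by omega⟩ := by
      intro i hi
      congr 1
      ext
      simp
      omega
    rcases abs_one_of_ne (h1 _) hlast with h | h
    · refine ⟨0, by norm_num, funext fun i => ?_⟩
      unfold xk
      split_ifs with h2 h3 h4
      · exact hone i h2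
      · rw [hval i h3, h]
      · exact absurd rfl h4
      · exact hzero i (by omega)
    · refine ⟨1, le_rfl, funext fun i => ?_⟩
      unfold xk
      split_ifs with h2 h3 h4
      · exact hone i h2
      · exact h4.elim
      · rw [hval i h3, h]
      · exact hzero i (by omega)

/-- the number of roots in terms of `d` and `m` -/
noncomputable def cd (d m : ℕ) : ℝ := 2 * m * (m - 1) + (if d = 0 then (0 : ℝ) else 2 * (m : ℝ))

/-- the value of `s` in terms of `d`, `m`, `K` and the sign `b` -/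
noncomputable def sv (d m K b : ℕ) : ℝ :=
  PdR d m (fun i => (xk m K b i : ℝ)) / PdR d m 0 * (K * (2 * m + d - K)) / (2 * (m + cd d m))

theorem sum_abs_le {z : Fin m → ℤ} {K : ℕ} (h1 : ∀ i, |z i| ≤ 1) (hK : ∑ i, |z i| = K) : K ≤ m := by
  have h2 : ∑ i, |z i| ≤ ∑ _i : Fin m, (1 : ℤ) := Finset.sum_le_sum fun i _ => h1 i
  rw [hK] at h2
  simpa using h2

/-- **the identity** -/
theorem id_D2 (h : D3 Φ X n s l y v) {K : ℕ} (hs : ShD2 Φ m e c d K l y) :
    (n : ℝ) * (K * (2 * m + d - K)) = 2 * s * (m + Φ.card) := by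
  classical
  obtain ⟨F, hm, ⟨p, hp, hp0⟩, z, hz, hz1, hzK⟩ := hs
  have hc := F.pos
  have hyy : (inner ℝ y y : ℝ) * c ^ 2 = 1 := by
    rw [F.inner_eq (by omega) h.inn.y_mem, Finset.sum_eq_single p (fun j _ hj => by rw [hp0 j hj, mul_zero])
      fun hh => absurd (Finset.mem_univ p) hh]
    have h2 : ((inner ℝ y (e p) : ℝ) * inner ℝ y (e p)) * c ^ 2 = (|(inner ℝ y (e p) : ℝ)| * c) ^ 2 := by
      rw [mul_pow, sq_abs]
      ring
    rw [h2, hp, one_pow]
  -- `|z i| ^ 2 = |z i|`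
  have ha : ∀ i, ((|z i| : ℤ) : ℝ) = 0 ∨ ((|z i| : ℤ) : ℝ) = 1 := by
    intro i
    by_cases h0 : z i = 0
    · left; simp [h0]
    · right
      rcases abs_one_of_ne (hz1 i) h0 with h' | h' <;> simp [h']
  have hab : ∀ i, |(z i : ℝ)| = 0 ∨ |(z i : ℝ)| = 1 := by
    intro i
    have := ha i
    push_cast at this
    exact this
  have hS : ∑ i, |(z i : ℝ)| = K := by
    have : ((∑ i, |z i| : ℤ) : ℝ) = ((K : ℤ) : ℝ) := by rw [hzK]
    push_cast at this
    exact this
  have hsq : ∑ i, (z i : ℝ) ^ 2 = K := by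
    rw [← hS]
    refine Finset.sum_congr rfl fun i _ => ?_
    rw [← sq_abs]
    rcases hab i with h' | h' <;> rw [h'] <;> norm_num
  have hsq' : ∑ i, |(z i : ℝ)| * |(z i : ℝ)| = K := by
    rw [← hS]
    refine Finset.sum_congr rfl fun i _ => ?_
    rcases hab i with h' | h' <;> rw [h'] <;> norm_num
  have hmax : ∀ i j, max |(z i : ℝ)| |(z j : ℝ)| = |(z i : ℝ)| + |(z j : ℝ)| - |(z i : ℝ)| * |(z j : ℝ)| := by
    intro i j
    rcases hab i with h1 | h1 <;> rcases hab j with h2 | h2 <;> rw [h1, h2] <;> norm_num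
  have hoff : ∑ p ∈ (Finset.univ : Finset (Fin m)).offDiag, max |(z p.1 : ℝ)| |(z p.2 : ℝ)| =
      K * (2 * m - K - 1) := by
    rw [sum_off (fun i j => max |(z i : ℝ)| |(z j : ℝ)|)]
    have h2 : ∀ i, ∑ j, max |(z i : ℝ)| |(z j : ℝ)| = m * |(z i : ℝ)| + K - |(z i : ℝ)| * K := by
      intro i
      rw [Finset.sum_congr rfl fun j _ => hmax i j, Finset.sum_sub_distrib, Finset.sum_add_distrib,
        Finset.sum_const, Finset.card_univ, Fintype.card_fin, nsmul_eq_mul, ← Finset.mul_sum, hS]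
    rw [Finset.sum_congr rfl fun i _ => h2 i, Finset.sum_sub_distrib, Finset.sum_add_distrib, ← Finset.mul_sum,
      ← Finset.sum_mul, hS, Finset.sum_const, Finset.card_univ, Fintype.card_fin, nsmul_eq_mul]
    simp only [max_self]
    rw [hS]
    ring
  have hcas : cas Φ l = c ^ 2 * (K * (2 * m + d - K)) := by
    rw [F.cas_eq (by omega) (Sat.span27 h.inn.sat h.inn.l_mem) z hz, hsq, hoff, hS]
    ring
  have h1 := h.inn.idt
  rw [F.finrank (by omega), hcas] at h1
  have h2 : 4 * (n : ℝ) * (K * (2 * m + d - K)) * (inner ℝ y y * c ^ 2) = (8 * s : ℕ) * (m + Φ.card) := by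
    rw [← h1]
    ring
  rw [hyy] at h2
  push_cast at h2
  linarith

/-- the dimension -/
theorem dim_D2 (h : D3 Φ X n s l y v) {K : ℕ} (hs : ShD2 Φ m e c d K l y) :
    ∃ b ≤ 1, (n : ℝ) = PdR d m (fun i => (xk m K b i : ℝ)) / PdR d m 0 := by
  obtain ⟨F, hm, -, z, hz, hz1, hzK⟩ := hs
  have hc := F.pos
  have hk : ∀ i, (inner ℝ l (e i) : ℝ) = c * (z i : ℝ) := by
    intro i
    have := hz i
    unfold cx at this
    field_simp at this
    linarith
  obtain ⟨σ, t, ht, h1, -, h2, h3⟩ := dim_frR h.wd F (k := fun i => (z i : ℝ)) hk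
  have habs : ∀ i, |t i * z (σ i)| = |z (σ i)| := by
    intro i
    rw [abs_mul]
    rcases ht i with h | h <;> rw [h] <;> simp
  obtain ⟨b, hb, hq⟩ := sorted_eq (q := fun i => t i * z (σ i)) (K := K) (fun i => by rw [habs]; exact hz1 _)
    (by
      rw [Finset.sum_congr rfl fun i _ => habs i, ← hzK]
      exact Equiv.sum_comp σ fun i => |z i|)
    (fun i j hij => by
      have := h1 i j hij
      exact_mod_cast this)
  refine ⟨b, hb, ?_⟩
  rw [eq_div_iff h3.ne', h2]
  congr 1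
  ext i
  rw [← hq]
  push_cast
  rfl

/-- `s` in terms of `d`, `m`, `K`, `b` -/
theorem sv_D2 (h : D3 Φ X n s l y v) {K : ℕ} (hs : ShD2 Φ m e c d K l y) : ∃ b ≤ 1, (s : ℝ) = sv d m K b := by
  obtain ⟨b, hb, hn⟩ := dim_D2 h hs
  refine ⟨b, hb, ?_⟩
  have h1 := id_D2 h hs
  obtain ⟨F, hm, -⟩ := hs
  have hcd : (Φ.card : ℝ) = cd d m := F.card
  have hm0 : (9 : ℝ) ≤ m := by exact_mod_cast hm
  have hpos : (0 : ℝ) < 2 * (m + cd d m) := by
    rw [← hcd]
    have : (0 : ℝ) ≤ Φ.card := Nat.cast_nonneg _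
    linarith
  unfold sv
  rw [← hn, eq_div_iff hpos.ne', h1, hcd]
  ring

/-- the lower bound for `s`, in terms of the number of weights -/
theorem low_D2 (h : D3 Φ X n s l y v) {K : ℕ} (hs : ShD2 Φ m e c d K l y) {r : ℕ} (hr : r ≤ K) {N : ℕ}
    (hN : N ≤ X.card) : r * N ≤ 6 * m * s := by
  have h1 := id_D2 h hs
  obtain ⟨F, hm, -, z, hz, hz1, hzK⟩ := hs
  have hKm : (K : ℝ) ≤ m := by exact_mod_cast sum_abs_le hz1 hzK
  have hm0 : (9 : ℝ) ≤ m := by exact_mod_cast hm
  have hcard : (Φ.card : ℝ) ≤ 2 * m ^ 2 := by exact_mod_cast F.card_le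
  have hn : (N : ℝ) ≤ n := by exact_mod_cast hN.trans h.inn.card_le
  have hrK : (r : ℝ) ≤ K := by exact_mod_cast hr
  have hs0 : (0 : ℝ) ≤ s := Nat.cast_nonneg _
  have hd0 : (0 : ℝ) ≤ d := Nat.cast_nonneg _
  have hN0 : (0 : ℝ) ≤ N := Nat.cast_nonneg _
  have hr0 : (0 : ℝ) ≤ r := Nat.cast_nonneg _
  have hn0 : (0 : ℝ) ≤ n := Nat.cast_nonneg _
  have e1 : (r : ℝ) * N ≤ K * n := mul_le_mul hrK hn hN0 (hr0.trans hrK)
  have e2 : (K * n : ℝ) * m ≤ (n : ℝ) * (K * (2 * m + d - K)) := by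
    have : (0 : ℝ) ≤ (K * n) * (m + d - K) := mul_nonneg (by nlinarith) (by linarith)
    nlinarith
  have e3 : 2 * (s : ℝ) * (m + Φ.card) ≤ 2 * s * (3 * m ^ 2) := by
    refine mul_le_mul_of_nonneg_left ?_ (by linarith)
    nlinarith
  have e4 : ((r : ℝ) * N) * m ≤ (6 * m * s) * m := by
    calc ((r : ℝ) * N) * m ≤ (K * n) * m := mul_le_mul_of_nonneg_right e1 (by linarith)
      _ ≤ 2 * s * (3 * m ^ 2) := by rw [h1] at e2; exact e2.trans e3
      _ = (6 * m * s) * m := by ring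
  have e5 := le_of_mul_le_mul_right e4 (by linarith)
  exact_mod_cast e5

end euclid

theorem floor_sv {d m K b s : ℕ} (h : (s : ℝ) = sv d m K b) : ⌊sv d m K b⌋₊ = s := by
  rw [← h, Nat.floor_natCast]

/-- **BLOCK T6** -/
theorem th_D2 : Th SD2 := by
  obtain ⟨g, hg⟩ : ∃ g : ℕ → ℕ → ℕ, ∀ m k, g m k = ⌊sv (k % 6 / 2) m (k / 6) (k % 2)⌋₊ := ⟨_, fun _ _ => rfl⟩
  have hg' : ∀ m K d b, d ≤ 2 → b ≤ 1 → g m (6 * K + 2 * d + b) = ⌊sv d m K b⌋₊ := by
    intro m K d b hd hb
    rw [hg, show (6 * K + 2 * d + b) % 6 / 2 = d by omega, show (6 * K + 2 * d + b) / 6 = K by omega,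
      show (6 * K + 2 * d + b) % 2 = b by omega]
  have h3 : Th {s | ∃ m k : ℕ, m ^ 2 ≤ 18 * s ∧ k ≤ 18 ∧ g m (18 + k) = s} :=
    Th.two 18 (fun m k => g m (18 + k)) fun s hs => hs
  have h4 : Th {s | ∃ m k : ℕ, m ^ 3 ≤ 80 * s ∧ k ≤ 80 * m ∧ g m k = s} := Th.three 80 g fun s hs => hs
  refine Th.mono ?_ (Th.union h3 h4)
  rintro s ⟨ι, _, Φ, X, n, l, y, v, m, e, c, d, K, hK, h, hs⟩ _
  obtain ⟨b, hb, hsv⟩ := sv_D2 h hs
  have hs' := hs
  obtain ⟨F, hm, -, z, hz, hz1, hzK⟩ := hs'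
  have hd := F.le
  have hKm := sum_abs_le hz1 hzK
  have hW : SmW X e c K := ⟨l, h.inn.l_mem, z, hz, hz1, hzK⟩
  obtain ⟨t, rfl⟩ : ∃ t, m = t + 9 := ⟨m - 9, by omega⟩
  rcases hK.lt_or_eq with hK4 | hK3
  · right
    have h1 := low_D2 h hs (r := 4) hK4 (hW.four F h.inn.sat hm hK4)
    refine ⟨t + 9, 6 * K + 2 * d + b, ?_, by omega, ?_⟩
    · have c1 : (t + 9).choose 2 * 2 = (t + 9).choose 1 * (t + 8) := Nat.choose_succ_right_eq (t + 9) 1
      have c2 : (t + 9).choose 3 * 3 = (t + 9).choose 2 * (t + 7) := Nat.choose_succ_right_eq (t + 9) 2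
      have c3 : (t + 9).choose 4 * 4 = (t + 9).choose 3 * (t + 6) := Nat.choose_succ_right_eq (t + 9) 3
      rw [Nat.choose_one_right] at c1
      have c4 : (t + 9).choose 4 * 24 = (t + 9) * ((t + 8) * (t + 7) * (t + 6)) := by
        calc (t + 9).choose 4 * 24 = ((t + 9).choose 4 * 4) * 6 := by ring
          _ = ((t + 9).choose 3 * 3) * (2 * (t + 6)) := by rw [c3]; ring
          _ = ((t + 9).choose 2 * 2) * ((t + 7) * (t + 6)) := by rw [c2]; ring
          _ = _ := by rw [c1]; ring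
      have c5 : (t + 9) * ((t + 8) * (t + 7) * (t + 6)) ≤ (t + 9) * (36 * s) := by
        rw [← c4]
        nlinarith
      have c6 := Nat.le_of_mul_le_mul_left c5 (by omega)
      have c7 : 80 * ((t + 8) * (t + 7) * (t + 6)) =
          36 * (t + 9) ^ 3 + (44 * t ^ 3 + 708 * t ^ 2 + 2932 * t + 636) := by ring
      generalize (t + 8) * (t + 7) * (t + 6) = P at c6 c7
      generalize (t + 9) ^ 3 = Q at c7 ⊢
      omega
    · rw [hg' _ _ _ _ hd hb, floor_sv hsv]
  · left
    subst hK3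
    have h1 := low_D2 h hs (r := 3) le_rfl (hW.le_card F h.inn.sat)
    refine ⟨t + 9, 2 * d + b, ?_, by omega, ?_⟩
    · have c1 : (t + 9).choose 2 * 2 = (t + 9).choose 1 * (t + 8) := Nat.choose_succ_right_eq (t + 9) 1
      have c2 : (t + 9).choose 3 * 3 = (t + 9).choose 2 * (t + 7) := Nat.choose_succ_right_eq (t + 9) 2
      rw [Nat.choose_one_right] at c1
      have c4 : (t + 9).choose 3 * 6 = (t + 9) * ((t + 8) * (t + 7)) := by
        calc (t + 9).choose 3 * 6 = ((t + 9).choose 3 * 3) * 2 := by ring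
          _ = ((t + 9).choose 2 * 2) * (t + 7) := by rw [c2]; ring
          _ = _ := by rw [c1]; ring
      have c5 : (t + 9) * ((t + 8) * (t + 7)) ≤ (t + 9) * (12 * s) := by
        rw [← c4]
        nlinarith
      have c6 := Nat.le_of_mul_le_mul_left c5 (by omega)
      have c7 : 18 * ((t + 8) * (t + 7)) = 12 * (t + 9) ^ 2 + (6 * t ^ 2 + 54 * t + 36) := by ring
      generalize (t + 8) * (t + 7) = P at c6 c7
      generalize (t + 9) ^ 2 = Q at c7 ⊢
      omega
    · have := hg' (t + 9) 3 d b hd hb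
      rw [show 18 + (2 * d + b) = 6 * 3 + 2 * d + b by ring, this, floor_sv hsv]

end AG
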